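import Pool.Agent.Helper53.LE.Final2
import Pool.Agent.Helper53.LE.Lower2
import Pool.Agent.Helper53.LE.Dense

/-!
MP_f5811f_co: `M(n, m)` at all positive densities, for all large `n`.
-/

namespace Pool.Agent.Results.MP_f5811f_co.AllDensities

open Pool.Agent.Helper53.LE

/-- The Laplacian energy of a graph with vertex set `Fin n`: the sum, over the eigenvalues of
the Laplacian matrix `D - A` with multiplicity, of the distance to the average degree
`2 |E(G)| / n`. -/
noncomputable def energy {n : ℕ} (G : SimpleGraph (Fin n)) : ℝ :=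
  haveI : DecidableRel G.Adj := Classical.decRel _
  ∑ i, |(SimpleGraph.isHermitian_lapMatrix (R := ℝ) G).eigenvalues i
    - 2 * (G.edgeSet.ncard : ℝ) / n|

/-- The Laplacian energies of the connected graphs with `n` vertices and `m` edges. -/
def energies (n m : ℕ) : Set ℝ :=
  {E : ℝ | ∃ G : SimpleGraph (Fin n), G.Connected ∧ G.edgeSet.ncard = m ∧ E = energy G}

/-- `low n m K r x = 2 (m + K(K+1)/2 - cK + max(0, r + 1 - c + x))` with `c = 2m/n`. -/
noncomputable def low (n m K r : ℕ) (x : ℝ) : ℝ :=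
  2 * (m + (K : ℝ) * (K + 1) / 2 - 2 * m / n * K + max 0 ((r : ℝ) + 1 - 2 * m / n + x))

/-- `high n m K r = 2 (c + K(K+1) + r - tK + max(0, r - t))` with `c = 2m/n`, `t = n - c`. -/
noncomputable def high (n m K r : ℕ) : ℝ :=
  2 * (2 * m / n + ((K : ℝ) * (K + 1) + r - (n - 2 * m / n) * K
    + max 0 ((r : ℝ) - (n - 2 * m / n))))

/-- For every `ε > 0` there are `C` and `n₀` such that for `n ≥ n₀` and
`ε n² ≤ m ≤ (1/2 - ε) n²`, with `m = C(K+1,2) + (n - 1 - K) + r`, `0 ≤ r < K`, and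
`C(n,2) - m = C(K'+1,2) + r'`, `0 ≤ r' ≤ K'`, the largest Laplacian energy `M` of a connected
graph with `n` vertices and `m` edges satisfies
`max (low n m K r 0) (high n m K' r') ≤ M ≤ max (low n m K r (C (K - r) / n)) (high n m K' r')`,
moreover `M = max (low n m K r 0) (high n m K' r')` if `r + 1 + C (K - r) / n ≤ 2m/n`, and
`M = high n m K' r'` if `m ≥ (1/4 + ε) n²`. -/
theorem result (ε : ℝ) (hε : 0 < ε) : ∃ C : ℝ, 0 < C ∧ ∃ n₀ : ℕ, ∀ n m : ℕ, n₀ ≤ n →
    ε * (n : ℝ) ^ 2 ≤ m → (m : ℝ) ≤ (1 / 2 - ε) * (n : ℝ) ^ 2 →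
    (∃ K r : ℕ, r < K ∧ m + K + 1 = (K + 1).choose 2 + n + r) ∧
    (∃ K' r' : ℕ, r' ≤ K' ∧ m + ((K' + 1).choose 2 + r') = n.choose 2) ∧
    ∀ K r K' r' : ℕ, r < K → m + K + 1 = (K + 1).choose 2 + n + r →
      r' ≤ K' → m + ((K' + 1).choose 2 + r') = n.choose 2 →
      ∃ M : ℝ, IsGreatest (energies n m) M ∧
        max (low n m K r 0) (high n m K' r') ≤ M ∧
        M ≤ max (low n m K r (C * (K - r) / n)) (high n m K' r') ∧
        ((r : ℝ) + 1 + C * (K - r) / n ≤ 2 * m / n →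
          M = max (low n m K r 0) (high n m K' r')) ∧
        ((1 / 4 + ε) * (n : ℝ) ^ 2 ≤ m → M = high n m K' r') := by
  set ε' : ℝ := min (ε / 2) (1 / 4) with hε'
  have hε'0 : 0 < ε' := lt_min (by linarith) (by norm_num)
  have hε'1 : ε' ≤ 1 / 4 := min_le_right _ _
  have hε'2 : ε' ≤ ε / 2 := min_le_left _ _
  obtain ⟨δ, η, η1, η2, n0, hC⟩ := exists_CC hε'0 hε'1 (1 / ε + 10)
  obtain ⟨n1, hn1⟩ := dense_exact hε
  have hδ0 : 0 < δ := (hC n0 le_rfl).1.facts.1
  refine ⟨8 / δ ^ 3, by positivity, max n0 n1, fun n m hn hm1 hm2 => ?_⟩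
  obtain ⟨hCn, hnN⟩ := hC n ((le_max_left _ _).trans hn)
  have hp : 0 < 1 / ε := by positivity
  have hnpos : (0 : ℝ) < n := by linarith
  have hεn : 1 ≤ ε * n := by
    have : 1 / ε ≤ (n : ℝ) := by linarith
    rwa [div_le_iff₀ hε, mul_comm] at this
  have hchoose : ∀ k : ℕ, (((k + 1).choose 2 : ℕ) : ℝ) = (k : ℝ) * (k + 1) / 2 := by
    intro k
    rw [Nat.cast_choose_two]; push_cast; ring
  have hnch : ((n.choose 2 : ℕ) : ℝ) = (n : ℝ) * (n - 1) / 2 := Nat.cast_choose_two ℝ n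
  refine ⟨?_, ?_, ?_⟩
  · -- decomposition of m
    have hle : n ≤ m := by
      have : (n : ℝ) ≤ m := by nlinarith
      exact_mod_cast this
    obtain ⟨b, hb⟩ := Nat.exists_eq_add_of_le hle
    obtain ⟨K, r, h1, h2⟩ := tri_exists (b + 1)
    refine ⟨K + 1, r, by omega, ?_⟩
    have : (K + 1 + 1).choose 2 = (K + 1).choose 1 + (K + 1).choose 2 :=
      Nat.choose_succ_succ _ _
    rw [Nat.choose_one_right] at this
    omega
  · have hle : m ≤ n.choose 2 := by
      have : (m : ℝ) ≤ ((n.choose 2 : ℕ) : ℝ) := by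
        rw [hnch]; nlinarith
      exact_mod_cast this
    obtain ⟨b, hb⟩ := Nat.exists_eq_add_of_le hle
    obtain ⟨K, r, h1, h2⟩ := tri_exists b
    exact ⟨K, r, h1, by omega⟩
  · intro K r K' r' hr hKr hr' hKr'
    have hreal : (2 * m : ℝ) = (K : ℝ) * (K + 1) + 2 * (n - 1 - K) + 2 * r := by
      have : ((m : ℝ) + K + 1) = (((K + 1).choose 2 : ℕ) : ℝ) + n + r := by exact_mod_cast hKr
      rw [hchoose] at this
      linarith
    have hreal' : (2 * m : ℝ) + (K' : ℝ) * (K' + 1) + 2 * r' = (n : ℝ) * (n - 1) := by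
      have : ((m : ℝ) + (((K' + 1).choose 2 : ℕ) + r')) = ((n.choose 2 : ℕ) : ℝ) := by
        exact_mod_cast hKr'
      rw [hchoose, hnch] at this
      linarith
    have hr0 : (0 : ℝ) ≤ r := Nat.cast_nonneg r
    have hr'0 : (0 : ℝ) ≤ r' := Nat.cast_nonneg r'
    have hK0 : (0 : ℝ) ≤ K := Nat.cast_nonneg K
    have hK'0 : (0 : ℝ) ≤ K' := Nat.cast_nonneg K'
    have hKn : K + 2 ≤ n := by
      by_contra h
      have h1 : (n : ℝ) - 1 ≤ K := by
        have : n ≤ K + 1 := by omega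
        have : (n : ℝ) ≤ (K : ℝ) + 1 := by exact_mod_cast this
        linarith
      have h5 : 0 ≤ ((K : ℝ) - (n - 1)) * (K + n - 2) :=
        mul_nonneg (by linarith) (by linarith)
      nlinarith
    have hK'n : K' + 2 < n := by
      by_contra h
      have h1 : (n : ℝ) - 2 ≤ K' := by
        have : n ≤ K' + 2 := by omega
        have : (n : ℝ) ≤ (K' : ℝ) + 2 := by exact_mod_cast this
        linarith
      have h2 : ((n : ℝ) - 2) * (n - 2) ≤ (K' : ℝ) * K' :=
        mul_le_mul h1 h1 (by linarith) (by linarith)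
      nlinarith
    have g1 : 2 * ε' * (n : ℝ) ^ 2 ≤ 2 * m := by
      have : ε' * (n : ℝ) ^ 2 ≤ ε / 2 * (n : ℝ) ^ 2 :=
        mul_le_mul_of_nonneg_right hε'2 (by positivity)
      nlinarith [mul_pos hε (pow_pos hnpos 2)]
    have g2 : 2 * ε' * (n : ℝ) ^ 2 ≤ (n : ℝ) * (n - 1) - 2 * m := by
      have : ε' * (n : ℝ) ^ 2 ≤ ε / 2 * (n : ℝ) ^ 2 :=
        mul_le_mul_of_nonneg_right hε'2 (by positivity)
      nlinarith
    have hup : ∀ G : SimpleGraph (Fin n), G.Connected → G.edgeSet.ncard = m →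
        energy G ≤ max (low n m K r (8 / δ ^ 3 * (K - r) / n)) (high n m K' r') := by
      intro G hG hGm
      have h1 := energy_upper2 hCn G hG hGm hr hreal hr' hreal' g1 g2
      have e1 : low n m K r (8 / δ ^ 3 * (K - r) / n) = 2 * (m + (K : ℝ) * (K + 1) / 2
          - 2 * m / n * K + max ((r : ℝ) + 1 - 2 * m / n + 8 / δ ^ 3 / n * (K - r)) 0) := by
        unfold low
        rw [max_comm]
        congr 4
        ring
      have e2 : high n m K' r' = 2 * (2 * m / n) + 2 * ((K' : ℝ) * (K' + 1) + r'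
          - (n - 2 * m / n) * K' + max ((r' : ℝ) - (n - 2 * m / n)) 0) := by
        unfold high
        rw [max_comm]; ring
      rw [e1, e2]
      exact h1
    obtain ⟨l1, l2, l3⟩ := energy_lower2 hr hKn hreal
    obtain ⟨d1, d2, d3⟩ := energy_lower hr' hK'n hreal'
    have e0 : low n m K r 0 = 2 * (m + (K : ℝ) * (K + 1) / 2
          - 2 * m / n * K + max ((r : ℝ) + 1 - 2 * m / n) 0) := by
      unfold low
      rw [max_comm, add_zero]
    have e2 : high n m K' r' = 2 * (2 * m / n) + 2 * ((K' : ℝ) * (K' + 1) + r'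
          - (n - 2 * m / n) * K' + max ((r' : ℝ) - (n - 2 * m / n)) 0) := by
      unfold high
      rw [max_comm]; ring
    rw [← e0] at l3
    rw [← e2] at d3
    -- a maximal graph
    have hfin : {G : SimpleGraph (Fin n) | G.Connected ∧ G.edgeSet.ncard = m}.Finite :=
      Set.toFinite _
    obtain ⟨G0, hG0, hG0max⟩ := Set.exists_max_image _ (fun G => energy G) hfin
      ⟨thr n K r, l1, l2⟩
    have hlow : max (low n m K r 0) (high n m K' r') ≤ energy G0 :=
      max_le (l3.trans (hG0max _ ⟨l1, l2⟩)) (d3.trans (hG0max _ ⟨d1, d2⟩))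
    refine ⟨energy G0, ⟨⟨G0, hG0.1, hG0.2, rfl⟩, ?_⟩, hlow, hup G0 hG0.1 hG0.2, ?_, ?_⟩
    · rintro E ⟨G, hG, hGm, rfl⟩
      exact hG0max G ⟨hG, hGm⟩
    · intro h
      refine le_antisymm ?_ hlow
      have h1 := hup G0 hG0.1 hG0.2
      have h2 : low n m K r (8 / δ ^ 3 * (K - r) / n) ≤ low n m K r 0 := by
        unfold low
        have hx : max 0 ((r : ℝ) + 1 - 2 * m / n + 8 / δ ^ 3 * (K - r) / n) = 0 :=
          max_eq_left (by linarith)
        have hy := le_max_left 0 ((r : ℝ) + 1 - 2 * m / n + 0)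
        rw [hx]
        linarith
      exact h1.trans (max_le_max h2 le_rfl)
    · intro h
      refine le_antisymm ?_ (d3.trans (hG0max _ ⟨d1, d2⟩))
      rw [e2]
      exact hn1 n m ((le_max_right _ _).trans hn) h hm2 K' r' hr' hreal' G0 hG0.2

end Pool.Agent.Results.MP_f5811f_co.AllDensities
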