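import Pool.Agent.Helper69.LapEnergy.Final

set_option autoImplicit false

namespace Pool.Agent.Results.MP_f5811f_co.AsymptoticMaximum

open Classical in
/-- The Laplacian energy of a finite graph: the sum of `|λ_i - 2m/n|` over the eigenvalues `λ_i`
(with multiplicity) of the Laplacian matrix. -/
noncomputable def lapEnergy {V : Type*} [Fintype V] (G : SimpleGraph V) : ℝ :=
  ∑ i, |(G.isHermitian_lapMatrix ℝ).eigenvalues i - 2 * (G.edgeSet.ncard : ℝ) / Fintype.card V|

/-- `M` is the largest Laplacian energy of a connected graph with `n` vertices and `m` edges. -/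
def IsMaxEnergy (n m : ℕ) (M : ℝ) : Prop :=
  IsGreatest {e | ∃ G : SimpleGraph (Fin n), G.Connected ∧ G.edgeSet.ncard = m ∧
    lapEnergy G = e} M

/-- The asymptotic value of the maximum. -/
noncomputable def Phi (n m : ℕ) : ℝ :=
  max ((4 * m - 2 * n) * (1 - Real.sqrt (2 * m) / n))
    (2 * ((n : ℝ) ^ 2 - 2 * m) * (1 - Real.sqrt ((n : ℝ) ^ 2 - 2 * m) / n))

/-- Uniformly for all `n - 1 ≤ m ≤ n(n-1)/2`, the maximum Laplacian energy of a connected graph
with `n` vertices and `m` edges is `Phi n m` up to a factor `1 + O(n^(-1/6))`. -/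
theorem result (n : ℕ) (hn : 320 ^ 6 ≤ n) (m : ℕ) (hm1 : n - 1 ≤ m)
    (hm2 : m ≤ n * (n - 1) / 2) :
    ∃ M, IsMaxEnergy n m M ∧ |M - Phi n m| ≤ 320 * (n : ℝ) ^ (-(1 / 6 : ℝ)) * Phi n m := by
  obtain ⟨M, hM, h1, h2⟩ := Pool.Agent.Helper69.LapEnergy.main_rate n (by exact_mod_cast hn) m hm1
    (by rw [Nat.choose_two_right]; exact hm2)
  refine ⟨M, hM, ?_⟩
  have e : Pool.Agent.Helper69.LapEnergy.Phi n m = Phi n m := rfl
  rw [e] at h1 h2
  rw [abs_le]
  constructor <;> linarith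

end Pool.Agent.Results.MP_f5811f_co.AsymptoticMaximum
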