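import Pool.Agent.Helper87.NT.Main

/-!
MP_f5811f_co: below `n²/4` the largest Laplacian energy `M(n, m)` of a connected graph is, for
most `m`, not attained by a threshold graph.
-/

namespace Pool.Agent.Results.MP_f5811f_co.NonThreshold

open Pool.Agent.Helper87.NT

/-- The Laplacian energy of a graph with vertex set `Fin n`: the sum, over the eigenvalues of
the Laplacian matrix `D - A` with multiplicity, of the distance to the average degree
`2 |E(G)| / n`. -/
noncomputable def energy {n : ℕ} (G : SimpleGraph (Fin n)) : ℝ :=
  haveI : DecidableRel G.Adj := Classical.decRel _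
  ∑ i, |(SimpleGraph.isHermitian_lapMatrix (R := ℝ) G).eigenvalues i
    - 2 * (G.edgeSet.ncard : ℝ) / n|

/-- A threshold graph: the vertices arrive one after another (`σ i` is the time of arrival of
`i`), and the vertex arriving at time `t` is adjacent to all previous vertices if `b t` holds and
to none of them otherwise. -/
def Threshold {n : ℕ} (G : SimpleGraph (Fin n)) : Prop :=
  ∃ (σ : Equiv.Perm (Fin n)) (b : Fin n → Prop),
    ∀ i j, G.Adj i j ↔ i ≠ j ∧ b (max (σ i) (σ j))

/-- Some connected threshold graph has the largest energy among all connected graphs with `n`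
vertices and `m` edges, that is, attains `M(n, m)`. -/
def Attained (n m : ℕ) : Prop :=
  ∃ T : SimpleGraph (Fin n), Threshold T ∧ T.Connected ∧ T.edgeSet.ncard = m ∧
    ∀ G : SimpleGraph (Fin n), G.Connected → G.edgeSet.ncard = m → energy G ≤ energy T

open Classical in
/-- For all large `n` and all `x ≤ n²/4`, the number of integers `m` with `n ≤ m ≤ x` for which
some connected threshold graph attains `M(n, m)` is zero if `x ≤ n^(4/3) / 16`, and at most
`x^(3/2) / n` in general. -/
theorem result : ∃ n₀ : ℕ, ∀ n x : ℕ, n₀ ≤ n → 4 * x ≤ n ^ 2 →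
    (((Finset.Icc n x).filter (fun m => Attained n m)).card : ℝ) ≤
      if 4096 * x ^ 3 ≤ n ^ 4 then 0 else x * Real.sqrt x / n :=
  count_main

end Pool.Agent.Results.MP_f5811f_co.NonThreshold
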