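import Pool.Agent.Helper53.LE.Pine2

/-!
MP_f5811f_co: for all large `n` the pineapple with clique number `1 + ⌊2n/3⌋` has the largest
Laplacian energy among all connected graphs with `n` vertices.
-/

namespace Pool.Agent.Results.MP_f5811f_co.Pineapple

open Pool.Agent.Helper53.LE

/-- The Laplacian energy of a graph with vertex set `Fin n`: the sum, over the eigenvalues of
the Laplacian matrix `D - A` with multiplicity, of the distance to the average degree
`2 |E(G)| / n`. -/
noncomputable def energy {n : ℕ} (G : SimpleGraph (Fin n)) : ℝ :=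
  haveI : DecidableRel G.Adj := Classical.decRel _
  ∑ i, |(SimpleGraph.isHermitian_lapMatrix (R := ℝ) G).eigenvalues i
    - 2 * (G.edgeSet.ncard : ℝ) / n|

/-- The pineapple with `n` vertices and clique number `p`: the vertices `0, …, p - 1` are
pairwise adjacent, and all other vertices are joined to the vertex `0` only. -/
def pineapple (n p : ℕ) : SimpleGraph (Fin n) where
  Adj i j := i ≠ j ∧ ((i.val < p ∧ j.val < p) ∨ i.val = 0 ∨ j.val = 0)
  symm := ⟨fun _ _ h => ⟨h.1.symm, by
    rcases h.2 with h | h | h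
    · exact Or.inl ⟨h.2, h.1⟩
    · exact Or.inr (Or.inr h)
    · exact Or.inr (Or.inl h)⟩⟩
  loopless := ⟨fun _ h => h.1 rfl⟩

/-- For all large `n`, the pineapple with clique number `1 + ⌊2n/3⌋` is connected and has the
largest Laplacian energy among all connected graphs with `n` vertices (and any number of
edges). -/
theorem result : ∃ n₀ : ℕ, ∀ n : ℕ, n₀ ≤ n →
    (pineapple n (1 + 2 * n / 3)).Connected ∧
    ∀ G : SimpleGraph (Fin n), G.Connected →
      energy G ≤ energy (pineapple n (1 + 2 * n / 3)) := by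
  obtain ⟨n₀, h⟩ := pine_upper
  refine ⟨n₀, fun n hn => ?_⟩
  obtain ⟨h30, hG⟩ := h n hn
  refine ⟨?_, fun G hc => (hG G hc).trans (pine_lower h30)⟩
  have hn0 : 0 < n := by omega
  rw [SimpleGraph.connected_iff_exists_forall_reachable]
  refine ⟨⟨0, hn0⟩, fun w => ?_⟩
  by_cases hw : w = ⟨0, hn0⟩
  · rw [hw]
  · have : (pineapple n (1 + 2 * n / 3)).Adj ⟨0, hn0⟩ w := ⟨fun h => hw h.symm, Or.inr (Or.inl rfl)⟩
    exact this.reachable

end Pool.Agent.Results.MP_f5811f_co.Pineapple
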